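import Pool.Agent.Lib.MP_b5021c_nt.KV.H67.Ez
import Pool.Agent.Lib.MP_b5021c_nt.H47.Mut
import Pool.Agent.Lib.MP_b5021c_nt.H75.T2c
import Pool.Agent.Lib.MP_b5021c_nt.KV.H76.Rim

/-!
# MP_b5021c_nt, route V, row KV_KH: the closing A with a ray of type (0,0) which has a mutual partner
-/

namespace Pool.Agent.B5.KV67

open scoped LaurentPolynomial
open Polynomial
open Pool.Agent.B5.H40 (uT)
open Pool.Agent.B5.Nr.Sch (Loc)
open Pool.Agent.B5.KE

theorem TT1 : (LaurentPolynomial.T (-1) : RO ℤ) * LaurentPolynomial.T 1 = 1 := by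
  rw [← LaurentPolynomial.T_add, neg_add_cancel, LaurentPolynomial.T_zero]

theorem tA_val : ((tA : (RO ℤ)ˣ) : RO ℤ) = -LaurentPolynomial.T (-1) := by
  unfold tA
  rw [H40.uT_val, Units.val_neg, Units.val_one, map_neg, map_one, neg_one_mul]

theorem tA_bl {L : Type} (e : L → (RO ℤ)ˣ) (S : L) : bl e S * tA = -(e S) := by
  have h := kap_ld (e S)
  rw [mul_comm]
  exact h

/-- The polynomial `rho`. -/
theorem rho_of {g : ℤ[X]} {s : RO ℤ} (hg : g.coeff 0 = 1)
    (h : (toLaurent (X * g) : RO ℤ) =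
      (1 + LaurentPolynomial.T 1 - LaurentPolynomial.T (-1)) * s) :
    ∃ rho : ℤ[X], s = -(LaurentPolynomial.T 2 * toLaurent rho) ∧ rho.coeff 0 = 1 ∧
      rho.coeff 1 = g.coeff 1 + 1 := by
  have hT2 : (LaurentPolynomial.T 2 : RO ℤ) * LaurentPolynomial.T (-2) = 1 := by
    rw [← LaurentPolynomial.T_add, add_neg_cancel, LaurentPolynomial.T_zero]
  have hs0 : s ≠ 0 := by
    rintro rfl
    rw [mul_zero, toLaurent_eq_zero] at h
    have h1 : (X * g).coeff 1 = 0 := by rw [h, coeff_zero]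
    rw [coeff_X_mul, hg] at h1
    exact one_ne_zero h1
  -- `g = (1 - X - X²) sl`
  set sl : RO ℤ := -(LaurentPolynomial.T (-2) * s) with hsl
  have hs : s = -(LaurentPolynomial.T 2 * sl) := by
    rw [hsl, mul_neg, neg_neg, ← mul_assoc, hT2, one_mul]
  have hsl0 : sl ≠ 0 := by
    intro h0
    apply hs0
    rw [hs, h0, mul_zero, neg_zero]
  have hgl : (toLaurent g : RO ℤ) = toLaurent (1 - X - X ^ 2) * sl := by
    have h1 : (LaurentPolynomial.T 1 : RO ℤ) * toLaurent g =
        LaurentPolynomial.T 1 * (toLaurent (1 - X - X ^ 2) * sl) := by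
      rw [← toLaurent_X, ← map_mul, h, hs, map_sub, map_sub, map_one, toLaurent_X,
        toLaurent_X_pow]
      have h2 : (LaurentPolynomial.T ((2 : ℕ) : ℤ) : RO ℤ) =
          LaurentPolynomial.T 1 * LaurentPolynomial.T 1 := by
        rw [← LaurentPolynomial.T_add]
        norm_num
      have h3 : (LaurentPolynomial.T 2 : RO ℤ) =
          LaurentPolynomial.T 1 * LaurentPolynomial.T 1 := h2
      rw [h2, h3]
      linear_combination (LaurentPolynomial.T 1 * sl : RO ℤ) * TT1
    have h4 := congrArg (fun x : RO ℤ => LaurentPolynomial.T (-1) * x) h1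
    simp only [← mul_assoc, TT1, one_mul] at h4
    exact h4
  obtain ⟨n, p, hp, hp0⟩ := H40.exists_normal sl hsl0
  have hq0 : ((1 - X - X ^ 2 : ℤ[X]) * p).coeff 0 = p.coeff 0 := by
    rw [mul_coeff_zero]
    simp
  have hn : n = 0 := by
    rcases lt_trichotomy n 0 with hn | hn | hn
    · exfalso
      obtain ⟨m, hm⟩ : ∃ m : ℕ, n = -((m : ℤ) + 1) := ⟨(-n - 1).toNat, by omega⟩
      have h1 : (toLaurent (X ^ (m + 1) * g) : RO ℤ) = toLaurent ((1 - X - X ^ 2) * p) := by
        rw [map_mul, hgl, hp, map_mul, toLaurent_X_pow]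
        have h2 : (LaurentPolynomial.T ((m + 1 : ℕ) : ℤ) : RO ℤ) * LaurentPolynomial.T n = 1 := by
          rw [← LaurentPolynomial.T_add, hm]
          push_cast
          rw [add_neg_cancel, LaurentPolynomial.T_zero]
        linear_combination (toLaurent (1 - X - X ^ 2) * toLaurent p : RO ℤ) * h2
      have h3 := toLaurent_injective h1
      have h4 := congrArg (fun p : ℤ[X] => p.coeff 0) h3
      simp only [hq0] at h4
      rw [pow_succ', mul_assoc, mul_coeff_zero, coeff_X_zero, zero_mul] at h4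
      exact hp0 h4.symm
    · exact hn
    · exfalso
      obtain ⟨m, hm⟩ : ∃ m : ℕ, n = (m : ℤ) + 1 := ⟨(n - 1).toNat, by omega⟩
      have h1 : (toLaurent g : RO ℤ) = toLaurent (X ^ (m + 1) * ((1 - X - X ^ 2) * p)) := by
        rw [hgl, hp, map_mul, map_mul, toLaurent_X_pow, hm]
        push_cast
        ring
      have h3 := toLaurent_injective h1
      have h4 : g.coeff 0 = (X ^ (m + 1) * ((1 - X - X ^ 2) * p)).coeff 0 := by rw [← h3]
      rw [hg, pow_succ', mul_assoc, mul_coeff_zero, coeff_X_zero, zero_mul] at h4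
      exact one_ne_zero h4
  rw [hn, LaurentPolynomial.T_zero, one_mul] at hp
  have hgp : g = (1 - X - X ^ 2) * p := by
    apply toLaurent_injective
    rw [hgl, hp, map_mul]
  refine ⟨p, by rw [← hp]; exact hs, ?_, ?_⟩
  · rw [← hq0, ← hgp, hg]
  · have h5 : g.coeff 1 = p.coeff 1 - p.coeff 0 := by
      have h6 : (1 - X - X ^ 2 : ℤ[X]) * p = p - X * p - X * (X * p) := by ring
      rw [hgp, h6, coeff_sub, coeff_sub, coeff_X_mul, coeff_X_mul, mul_coeff_zero, coeff_X_zero,
        zero_mul, sub_zero]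
    have h7 : p.coeff 0 = 1 := by rw [← hq0, ← hgp, hg]
    rw [h5, h7]
    ring

section

set_option linter.unusedSectionVars false

variable {P L : Type} [Fintype P] [DecidableEq P] [AddCommGroup L] [Module.Free ℤ L]
  [Module.Finite ℤ L] {phi : L →+ (P → ℤ)} {D : AO ℤ L} {S R : L} {i0 i1 : P}

/-- The coefficients of the double closing. -/
theorem csm_coeff (hb : ∀ a ∈ supp D, Bin phi a) (h0 : co phi i0 S = 1)
    {R' : Ker (co phi i0)} (hR' : (R' : L) = R) (h1 : co (phO phi S i0) i1 R' = 1)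
    (u0 u1 : (RO ℤ)ˣ) (a : Ker (co (phO phi S i0) i1)) :
    (cl (co (phO phi S i0) i1) R' h1 u1 (cl (co phi i0) S h0 u0 D)).coeff a =
      csm D S R u0 u1 ((a : Ker (co phi i0)) : L) := by
  have hc : ∀ b : Ker (co phi i0), (cl (co phi i0) S h0 u0 D).coeff b =
      D.coeff (b : L) + (u0 : RO ℤ) * D.coeff ((b : L) + S) :=
    H47.cl_coeff_bin (co phi i0) S h0 u0 D (fun b hb' => hb b hb' i0)
  have hS1 : phi S i1 = 0 := by
    by_contra hne
    have h2 : (if phi S i1 = 0 then phi (R' : L) i1 else 0) = 1 := h1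
    rw [if_neg hne] at h2
    exact zero_ne_one h2
  have hk : ∀ b : Ker (co phi i0), co (phO phi S i0) i1 b = phi (b : L) i1 := by
    intro b
    change (if phi S i1 = 0 then phi (b : L) i1 else 0) = _
    rw [if_pos hS1]
  have h2 : ∀ b ∈ supp (cl (co phi i0) S h0 u0 D), co (phO phi S i0) i1 b = 0 ∨
      co (phO phi S i0) i1 b = 1 := by
    intro b hb'
    have h3 : (cl (co phi i0) S h0 u0 D).coeff b ≠ 0 := hb'
    rw [hc] at h3
    rw [hk]
    by_cases h4 : D.coeff (b : L) = 0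
    · rw [h4, zero_add] at h3
      have h5 := hb _ (right_ne_zero_of_mul h3) i1
      rw [map_add, Pi.add_apply, hS1, add_zero] at h5
      exact h5
    · exact hb _ h4 i1
  rw [H47.cl_coeff_bin _ _ _ _ _ h2, hc, hc, csm]
  have e1 : (((a : Ker (co phi i0)) + R' : Ker (co phi i0)) : L) =
      ((a : Ker (co phi i0)) : L) + R := by
    rw [← hR']
    rfl
  rw [e1, add_right_comm (((a : Ker (co phi i0)) : L)) R S]
  ring

/-- The projection to the lattice of the double closing. -/
def dpr (h0 : co phi i0 S = 1) {R' : Ker (co phi i0)} (h1 : co (phO phi S i0) i1 R' = 1) :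
    L →+ Ker (co (phO phi S i0) i1) :=
  (prj (co (phO phi S i0) i1) R' h1).comp (prj (co phi i0) S h0)

theorem dpr_val (h0 : co phi i0 S = 1) {R' : Ker (co phi i0)}
    (h1 : co (phO phi S i0) i1 R' = 1) (a : L) (ha0 : phi a i0 = 0) (ha1 : phi a i1 = 0) :
    (((dpr h0 h1 a : Ker (co (phO phi S i0) i1)) : Ker (co phi i0)) : L) = a := by
  have e1 : prj (co phi i0) S h0 a = ⟨a, ha0⟩ := by
    apply Subtype.ext
    rw [prj_coe]
    have : (co phi i0) a = 0 := ha0
    rw [this, zero_smul, sub_zero]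
  have h2 : co (phO phi S i0) i1 (⟨a, ha0⟩ : Ker (co phi i0)) = 0 := by
    change (if phi S i1 = 0 then phi a i1 else 0) = 0
    split_ifs
    · exact ha1
    · rfl
  change (((prj (co (phO phi S i0) i1) R' h1 (prj (co phi i0) S h0 a) :
    Ker (co (phO phi S i0) i1)) : Ker (co phi i0)) : L) = a
  rw [e1, prj_coe, h2, zero_smul, sub_zero]

theorem dpr_self (h0 : co phi i0 S = 1) {R' : Ker (co phi i0)}
    (h1 : co (phO phi S i0) i1 R' = 1) (a : Ker (co (phO phi S i0) i1)) :
    dpr h0 h1 ((a : Ker (co phi i0)) : L) = a := by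
  have e1 : prj (co phi i0) S h0 ((a : Ker (co phi i0)) : L) = (a : Ker (co phi i0)) := by
    apply Subtype.ext
    rw [prj_coe]
    have : (co phi i0) ((a : Ker (co phi i0)) : L) = 0 := (a : Ker (co phi i0)).2
    rw [this, zero_smul, sub_zero]
  change prj (co (phO phi S i0) i1) R' h1 (prj (co phi i0) S h0 ((a : Ker (co phi i0)) : L)) = a
  rw [e1]
  apply Subtype.ext
  rw [prj_coe]
  have : co (phO phi S i0) i1 (a : Ker (co phi i0)) = 0 := a.2
  rw [this, zero_smul, sub_zero]

theorem dpr_S (h0 : co phi i0 S = 1) {R' : Ker (co phi i0)}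
    (h1 : co (phO phi S i0) i1 R' = 1) : dpr h0 h1 S = 0 := by
  change prj (co (phO phi S i0) i1) R' h1 (prj (co phi i0) S h0 S) = 0
  have e1 : prj (co phi i0) S h0 S = 0 := by
    apply Subtype.ext
    rw [prj_coe, h0, one_smul, sub_self]
    rfl
  rw [e1, map_zero]

theorem dpr_R (h0 : co phi i0 S = 1) {R' : Ker (co phi i0)} (hR' : (R' : L) = R)
    (h1 : co (phO phi S i0) i1 R' = 1) : dpr h0 h1 R = 0 := by
  change prj (co (phO phi S i0) i1) R' h1 (prj (co phi i0) S h0 R) = 0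
  have e1 : prj (co phi i0) S h0 R = R' := by
    apply Subtype.ext
    rw [prj_coe]
    have : (co phi i0) R = 0 := by rw [← hR']; exact R'.2
    rw [this, zero_smul, sub_zero, hR']
  rw [e1]
  apply Subtype.ext
  rw [prj_coe, h1, one_smul, sub_self]
  rfl

/-- A functional which is zero on `S`, `R` and not zero is not zero on the lattice of the double
closing. -/
theorem dpr_ne (h0 : co phi i0 S = 1) {R' : Ker (co phi i0)} (hR' : (R' : L) = R)
    (h1 : co (phO phi S i0) i1 R' = 1) {nu : L →+ ℤ} (hS : nu S = 0) (hR : nu R = 0)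
    (hne : nu ≠ 0) : ∃ a : Ker (co (phO phi S i0) i1), nu ((a : Ker (co phi i0)) : L) ≠ 0 := by
  by_contra hcon
  push Not at hcon
  apply hne
  apply AddMonoidHom.ext
  intro x
  have h2 := hcon (dpr h0 h1 x)
  change nu (((prj (co (phO phi S i0) i1) R' h1 (prj (co phi i0) S h0 x) :
    Ker (co (phO phi S i0) i1)) : Ker (co phi i0)) : L) = 0 at h2
  rw [prj_coe] at h2
  have e2 : ((prj (co phi i0) S h0 x - co (phO phi S i0) i1 (prj (co phi i0) S h0 x) • R' :
      Ker (co phi i0)) : L) = x - co phi i0 x • S -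
        co (phO phi S i0) i1 (prj (co phi i0) S h0 x) • R := by
    rw [← hR']
    rfl
  rw [e2, map_sub, map_sub, map_zsmul, map_zsmul, hS, hR, smul_zero, smul_zero, sub_zero,
    sub_zero] at h2
  exact h2

/-- The rank of a double closing: a drop gives a functional. -/
theorem dr_of (hRk : RkS) (hKm : KmuS) (hb : ∀ a ∈ supp D, Bin phi a) (h0 : co phi i0 S = 1)
    {R' : Ker (co phi i0)} (hR' : (R' : L) = R) (h1 : co (phO phi S i0) i1 R' = 1)
    (u0 u1 : (RO ℤ)ˣ)
    (hf : ∀ nu : L →+ ℤ, nu S = 0 → nu R = 0 →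
      (∀ b : L, phi b i0 = 0 → phi b i1 = 0 → csm D S R u0 u1 b ≠ 0 → nu b = 0) → nu = 0) :
    Module.finrank ℤ (Ker (co phi i0)) =
      rk (supp (cl (co (phO phi S i0) i1) R' h1 u1 (cl (co phi i0) S h0 u0 D))) + 1 := by
  have h2 := finrank_ker hRk h1
  have h3 := (hRk (Ker (co (phO phi S i0) i1)) (Ker (co (phO phi S i0) i1))).2.2.1
    (supp (cl (co (phO phi S i0) i1) R' h1 u1 (cl (co phi i0) S h0 u0 D)))
  by_contra hne
  obtain ⟨mu, hmu, hk⟩ := hKm _ (supp (cl (co (phO phi S i0) i1) R' h1 u1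
    (cl (co phi i0) S h0 u0 D))) (by omega)
  have h4 := hf (mu.comp (dpr h0 h1))
    (by rw [AddMonoidHom.comp_apply, dpr_S, map_zero])
    (by rw [AddMonoidHom.comp_apply, dpr_R h0 hR', map_zero])
    (fun b hb0 hb1 hne' => by
      rw [AddMonoidHom.comp_apply]
      apply hk
      change (cl (co (phO phi S i0) i1) R' h1 u1 (cl (co phi i0) S h0 u0 D)).coeff _ ≠ 0
      rw [csm_coeff hb h0 hR', dpr_val h0 h1 b hb0 hb1]
      exact hne')
  apply hmu
  apply AddMonoidHom.ext
  intro a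
  have h5 := DFunLike.congr_fun h4 ((a : Ker (co phi i0)) : L)
  rw [AddMonoidHom.comp_apply, dpr_self] at h5
  exact h5

/-- A functional kills the double closing: a drop. -/
theorem bad_of (hRk : RkS) (hb : ∀ a ∈ supp D, Bin phi a) (h0 : co phi i0 S = 1)
    {R' : Ker (co phi i0)} (hR' : (R' : L) = R) (h1 : co (phO phi S i0) i1 R' = 1)
    (u0 u1 : (RO ℤ)ˣ) {nu : L →+ ℤ} (hS : nu S = 0) (hR : nu R = 0) (hne : nu ≠ 0)
    (hf : ∀ b : L, phi b i0 = 0 → phi b i1 = 0 → csm D S R u0 u1 b ≠ 0 → nu b = 0) :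
    Module.finrank ℤ (Ker (co phi i0)) ≠
      rk (supp (cl (co (phO phi S i0) i1) R' h1 u1 (cl (co phi i0) S h0 u0 D))) + 1 := by
  have h2 := finrank_ker hRk h1
  obtain ⟨a, ha⟩ := dpr_ne h0 hR' h1 hS hR hne
  set mu : Ker (co (phO phi S i0) i1) →+ ℤ :=
    (nu.comp (incl (Ker (co phi i0)))).comp (incl (Ker (co (phO phi S i0) i1))) with hmu
  have hmu0 : mu ≠ 0 := by
    intro h
    apply ha
    exact DFunLike.congr_fun h a
  have hSi : phi S i1 = 0 := by
    by_contra hne'
    have h3 : (if phi S i1 = 0 then phi (R' : L) i1 else 0) = 1 := h1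
    rw [if_neg hne'] at h3
    exact zero_ne_one h3
  have h3 : Submodule.span ℤ (supp (cl (co (phO phi S i0) i1) R' h1 u1
      (cl (co phi i0) S h0 u0 D))) ≤ Ker mu := by
    rw [Submodule.span_le]
    intro b hb'
    have hb2 : (cl (co (phO phi S i0) i1) R' h1 u1 (cl (co phi i0) S h0 u0 D)).coeff b ≠ 0 := hb'
    rw [csm_coeff hb h0 hR'] at hb2
    apply hf _ (b : Ker (co phi i0)).2 ?_ hb2
    have h4 : (if phi S i1 = 0 then phi ((b : Ker (co phi i0)) : L) i1 else 0) = 0 := b.2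
    rw [if_pos hSi] at h4
    exact h4
  have h4 := Submodule.finrank_mono h3
  have h5 := (hRk (Ker (co (phO phi S i0) i1)) (Ker (co (phO phi S i0) i1))).1 mu hmu0
  have h6 : rk (supp (cl (co (phO phi S i0) i1) R' h1 u1 (cl (co phi i0) S h0 u0 D))) =
    Module.finrank ℤ (Submodule.span ℤ (supp (cl (co (phO phi S i0) i1) R' h1 u1
      (cl (co phi i0) S h0 u0 D)))) := rfl
  omega

/-- (KV_KH) -/
theorem kvh (hM1 : M1S) (hMV : MVS) (hMfc : MfcS) (hMco : McoS) (hF1 : F1S) (hRk : RkS)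
    (hKm : KmuS) (hFsp : FspS) (hVco : VcoS) (hVf : KvfS) (hVv : KvvS) : KvhS := by
  intro P L _ _ _ _ _ phi D q a j F e S S1 R R1 r kd pr t00 mR
  have H := kd.cex
  have fp := H.fp
  have hD := fp.dd
  have hj := H.hj
  have h2 : 2 ≤ Module.finrank ℤ L := by rw [H.fr]; omega
  have hS : Ray D S := pr.mt.r0
  have hRS := kd.rn S hS
  have hRR := kd.rn R t00.ray
  have pk := kd.pkg S S1 pr.mt
  have pkR := kd.pkg R R1 mR
  obtain ⟨hdis, hA1, hA11, ⟨Y⟩⟩ := hMco ℤ P L phi D S S1 (bl e S) (bl e S1) hD.inj hD.bin pr.mt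
  obtain ⟨c, G, hc1, hcl, hdd, -, -, hc0, -, -, -⟩ := pk.fac Y
  obtain ⟨E, hE, hE0, -, hop⟩ := typa hRS.loc pk.u hRS.ne
  have hEz := Ez_of hMfc hD h2 hRS pr.mt hE hop pk.cusp
  have hcu := c_unit hM1 hMV hc1 hc0 hE hEz
  have hAS : (bl e S : RO ℤ) * D.coeff S = toLaurent (X * F S) := by
    have h5 := ld_S hRS 1
    rwa [pow_one] at h5
  have hAR : (bl e R : RO ℤ) * D.coeff R = toLaurent (X * F R) := by
    have h5 := ld_S hRR 1
    rwa [pow_one] at h5
  obtain ⟨rho, hrho, hrho0, hrho1⟩ := rho_of (g := F R) (s := (bl e R : RO ℤ) * r) pkR.u (by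
    rw [← hAR, t00.c00]
    ring)
  -- `S`, `R` are disjoint
  have hSi0 : phi S Y.i0 = 1 := Y.h0
  have hdR : ∀ i, phi R i = 0 ∨ phi S i = 0 := fun i => (t00.out i).imp id And.left
  have hRi0 : phi R Y.i0 = 0 := by
    rcases hdR Y.i0 with h | h
    · exact h
    · rw [hSi0] at h
      exact absurd h one_ne_zero
  have hRneS : R ≠ S := by
    rintro rfl
    rw [hSi0] at hRi0
    exact one_ne_zero hRi0
  set R' : Ker (co phi Y.i0) := ⟨R, hRi0⟩ with hR'
  have hR'c : (R' : L) = R := rfl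
  obtain ⟨lam, l0, l1, hlam⟩ := hVf P L phi D (bl e) S S1 R hD h2 pr t00.ray hRneS t00.out t00.us1
  -- the closing along `S`
  have hTS : bl e S * tA = -(e S) := tA_bl e S
  have hclR : D.coeff R + ((-(e S) : (RO ℤ)ˣ) : RO ℤ) * D.coeff (R + S) =
      (1 + LaurentPolynomial.T 1) * r := by
    rw [← hTS, Units.val_mul, tA_val, t00.c00]
    linear_combination (-(LaurentPolynomial.T (-1)) : RO ℤ) * t00.c10
  have h1T : (1 + LaurentPolynomial.T 1 : RO ℤ) ≠ 0 := by
    have h5 : (1 + LaurentPolynomial.T 1 : RO ℤ) = toLaurent (1 + X) := by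
      rw [map_add, map_one, toLaurent_X]
    rw [h5, toLaurent_ne_zero]
    intro h6
    have h7 := congrArg (fun p : ℤ[X] => p.coeff 0) h6
    simp at h7
  obtain ⟨hray, him⟩ := KV.H76.ray_im hFsp fp Y.h0 hR'c hS t00.ray hdR l0 l1 hlam hcl hcu.ne_zero (by
    rw [hclR]
    exact mul_ne_zero h1T t00.r0)
  have hcG : ∀ b : Ker (co phi Y.i0), c * G.coeff b =
      D.coeff (b : L) + ((-(e S) : (RO ℤ)ˣ) : RO ℤ) * D.coeff ((b : L) + S) := by
    intro b
    rw [← H47.cl_coeff_bin (co phi Y.i0) S Y.h0 (-(e S)) D (fun b hb' => hD.bin b hb' Y.i0), hcl,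
      H75.T2C.cst_mul_coeff]
  obtain ⟨cu, rfl⟩ := hcu
  -- double closings
  have hclG : ∀ (i1 : P) (h1 : co (phO phi S Y.i0) i1 R' = 1) (er : (RO ℤ)ˣ),
      cl (co (phO phi S Y.i0) i1) R' h1 er (cl (co phi Y.i0) S Y.h0 (-(e S)) D) =
        cst (cu : RO ℤ) * cl (co (phO phi S Y.i0) i1) R' h1 er G := by
    intro i1 h1 er
    rw [hcl, map_mul, H75.T2C.cl_cst]
  have hphS : ∀ i1, co (phO phi S Y.i0) i1 R' = 1 → phi S i1 = 0 ∧ phi R i1 = 1 := by
    intro i1 h1
    have h3 : (if phi S i1 = 0 then phi R i1 else 0) = 1 := h1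
    by_cases hne : phi S i1 = 0
    · rw [if_pos hne] at h3
      exact ⟨hne, h3⟩
    · rw [if_neg hne] at h3
      exact absurd h3 zero_ne_one
  have hfr := finrank_ker hRk Y.h0
  have hbs : (bl e R : RO ℤ) * r = -(LaurentPolynomial.T 2 * toLaurent rho) := hrho
  have hT21 : (LaurentPolynomial.T 2 : RO ℤ) = LaurentPolynomial.T 1 * LaurentPolynomial.T 1 := by
    rw [← LaurentPolynomial.T_add]
    norm_num
  refine ⟨P, Ker (co phi Y.i0), inferInstance, inferInstance, inferInstance, inferInstance,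
    inferInstance, phO phi S Y.i0, G, R', bl e R * tA, cu * tA, E, rho, ?_⟩
  refine ⟨hdd, hray, him, by rw [hfr, H.fr], hj, pk.u, ?_, hEz, hrho0, ?_, ?_, ?_, ?_, ?_, ?_⟩
  · rw [hE0, pk.n]
  · have h5 := pk.n
    have h6 := pkR.n
    omega
  · -- `g0`
    rw [Units.val_mul, tA_val]
    have h5 : q - F S = -(X * E) := by rw [← hE]; ring
    rw [h5, map_neg, map_mul, toLaurent_X] at hc0
    linear_combination (-(LaurentPolynomial.T (-1)) : RO ℤ) * hc0 +
      (toLaurent E : RO ℤ) * TT1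
  · -- `gR`
    have h5 := hcG R'
    rw [hR'c, hclR] at h5
    rw [Units.val_mul, Units.val_mul, tA_val, map_mul, map_add, map_one, toLaurent_X]
    have h6 : (bl e R : RO ℤ) * ((cu : RO ℤ) * G.coeff R') =
        -(LaurentPolynomial.T 2 * toLaurent rho) * (1 + LaurentPolynomial.T 1) := by
      rw [h5, ← hbs]
      ring
    rw [hT21] at h6
    linear_combination (LaurentPolynomial.T (-1) * LaurentPolynomial.T (-1) : RO ℤ) * h6 -
      (toLaurent rho * (1 + LaurentPolynomial.T 1) : RO ℤ) *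
        (LaurentPolynomial.T (-1) * LaurentPolynomial.T 1 + 1) * TT1
  · -- `dr`
    intro i1 h1
    obtain ⟨hSi1, hRi1⟩ := hphS i1 h1
    have h5 := dr_of hRk hKm hD.bin Y.h0 hR'c h1 (bl e S * tA) (bl e R * tA) (fun nu n0 n1 hk =>
      hVv P L phi D (bl e) S S1 R R1 r Y.i0 i1 nu hD h2 pr.mt t00 mR (by
        rw [hAS, hbs, tA_val, hT21]
        intro h6
        have h7 : (toLaurent (X * F S) : RO ℤ) = toLaurent (X * rho) := by
          rw [h6, map_mul, toLaurent_X]
          linear_combination (LaurentPolynomial.T 1 * toLaurent rho : RO ℤ) * TT1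
        have h8 := toLaurent_injective h7
        have h9 : (X * F S).coeff 2 = (X * rho).coeff 2 := by rw [h8]
        rw [coeff_X_mul, coeff_X_mul, hrho1] at h9
        have h10 := pk.n
        have h11 := pkR.n
        omega) hSi0 hRi1 n0 n1 hk)
    rw [hTS, hclG i1 h1, H75.T2C.supp_cst_mul cu.ne_zero] at h5
    exact h5
  · -- `bad`
    intro i1 h1
    obtain ⟨hSi1, hRi1⟩ := hphS i1 h1
    have hRne : R ≠ 0 := t00.ray.2.1
    have hSU : S ∈ US (bl e R) R D := by
      by_contra hSU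
      have h5 := (hF1 ℤ P L phi D R (bl e R) hD.inj hD.bin (hD.bin R t00.ray.1) hRne S hSU).2
        (fun i => (hdR i).symm)
      have h6 : (bl e S : RO ℤ) * D.coeff S = (bl e R : RO ℤ) * r := by
        have h7 := t00.c10
        rw [add_comm S R] at h5
        linear_combination (bl e S : RO ℤ) * h5 - (bl e R : RO ℤ) * h7
      rw [hAS, hbs] at h6
      have h7 : (toLaurent (X * F S) : RO ℤ) = toLaurent (-(X ^ 2 * rho)) := by
        rw [h6, map_neg, map_mul, toLaurent_X_pow]
        rfl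
      have h8 := toLaurent_injective h7
      have h9 : (X * F S).coeff 1 = (-(X ^ 2 * rho)).coeff 1 := by rw [h8]
      rw [coeff_X_mul, pk.u, coeff_neg, pow_two, mul_assoc, coeff_X_mul, mul_coeff_zero,
        coeff_X_zero, zero_mul, neg_zero] at h9
      exact one_ne_zero h9
    have hRU : R ∈ US (bl e R) R D := H47.S_mem (bl e R) R D
    -- a functional
    have h5 : rk ((US (bl e R) R D : Submodule ℤ L) : Set L) < Module.finrank ℤ L := by
      have h6 : rk ((US (bl e R) R D : Submodule ℤ L) : Set L) =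
          Module.finrank ℤ (US (bl e R) R D) := by
        unfold rk
        rw [Submodule.span_eq]
      rw [h6]
      refine lt_of_le_of_ne (Submodule.finrank_le _) fun h7 => mR.m0 (US_top h7 R1)
    obtain ⟨nu, hnu, hk⟩ := hKm L _ h5
    have hv : ∀ b : L, phi b i1 = 0 → D.coeff b + (bl e R : RO ℤ) * D.coeff (b + R) ≠ 0 →
        nu b = 0 := by
      intro b hb hne
      apply hk
      refine ⟨1, one_ne_zero, ?_⟩
      rw [one_smul]
      refine Submodule.subset_span (Or.inr ?_)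
      have h7 := (hVco ℤ P L phi D R (bl e R) hD.inj hD.bin (hD.bin R t00.ray.1) hRne).2.2.2.2
        i1 hRi1 ⟨b, hb⟩
      change vco (bl e R) R D b ≠ 0
      rw [← h7, H47.cl_coeff_bin (co phi i1) R hRi1 (bl e R) D (fun b hb' => hD.bin b hb' i1)]
      exact hne
    have h6 := bad_of hRk hD.bin Y.h0 hR'c h1 (bl e S * tA) (bl e R) (hk S hSU) (hk R hRU) hnu
      (fun b hb0 hb1 hne => by
        by_cases h7 : D.coeff b + (bl e R : RO ℤ) * D.coeff (b + R) = 0
        · have h8 : D.coeff (b + S) + (bl e R : RO ℤ) * D.coeff (b + S + R) ≠ 0 := by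
            intro h9
            apply hne
            unfold csm
            linear_combination h7 + ((bl e S * tA : (RO ℤ)ˣ) : RO ℤ) * h9
          have h9 := hv (b + S) (by rw [map_add, Pi.add_apply, hb1, hSi1, add_zero]) h8
          rw [map_add, hk S hSU, add_zero] at h9
          exact h9
        · exact hv b hb1 h7)
    rw [hTS, hclG i1 h1, H75.T2C.supp_cst_mul cu.ne_zero] at h6
    rw [mul_inv_cancel_right]
    exact h6
  · -- `x`
    intro i1 h1
    obtain ⟨hSi1, hRi1⟩ := hphS i1 h1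
    have hS1i0 : phi S1 Y.i0 = 0 := by
      rcases hdis Y.i0 with h | h
      · rw [hSi0] at h
        exact absurd h one_ne_zero
      · exact h
    have hS1i1 : phi S1 i1 = 0 := by
      rcases t00.out i1 with h | h
      · rw [hRi1] at h
        exact absurd h one_ne_zero
      · exact h.2
    refine ⟨⟨⟨S1, hS1i0⟩, ?_⟩, -(cu * bl e S1), ?_⟩
    · change (if phi S i1 = 0 then phi S1 i1 else 0) = 0
      rw [if_pos hSi1]
      exact hS1i1
    · have h5 := csm_coeff hD.bin Y.h0 hR'c h1 (-(e S)) (bl e R * tA) ⟨⟨S1, hS1i0⟩, by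
        change (if phi S i1 = 0 then phi S1 i1 else 0) = 0
        rw [if_pos hSi1]
        exact hS1i1⟩
      rw [hclG i1 h1, H75.T2C.cst_mul_coeff] at h5
      have h6 : (bl e S1 : RO ℤ) * csm D S R (-(e S)) (bl e R * tA) S1 =
          (1 + LaurentPolynomial.T (-1)) * ((bl e S : RO ℤ) * D.coeff S +
            LaurentPolynomial.T (-1) * ((bl e R : RO ℤ) * r)) := by
        rw [← hTS]
        unfold csm
        rw [Units.val_mul, Units.val_mul, tA_val]
        have h7 := t00.c01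
        have h8 := t00.c11
        rw [add_comm R S1] at h7
        rw [show R + S + S1 = S1 + S + R by abel] at h8
        rw [add_comm S S1] at hA11
        linear_combination hA1 - (LaurentPolynomial.T (-1) : RO ℤ) * hA11 -
          (bl e R : RO ℤ) * LaurentPolynomial.T (-1) * h7 +
          (bl e R : RO ℤ) * LaurentPolynomial.T (-1) * LaurentPolynomial.T (-1) * h8
      rw [hAS, hbs, hT21, map_mul, toLaurent_X] at h6
      rw [Units.val_neg, Units.val_mul, map_mul, map_add, map_one, toLaurent_X, map_sub]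
      have h7 : (cu : RO ℤ) * (cl (co (phO phi S Y.i0) i1) R' h1 (bl e R * tA) G).coeff
          ⟨⟨S1, hS1i0⟩, by
            change (if phi S i1 = 0 then phi S1 i1 else 0) = 0
            rw [if_pos hSi1]
            exact hS1i1⟩ = csm D S R (-(e S)) (bl e R * tA) S1 := h5
      linear_combination (-(bl e S1) : RO ℤ) * h7 - h6 +
        ((toLaurent rho - toLaurent (F S)) +
          LaurentPolynomial.T 1 * toLaurent rho * (1 + LaurentPolynomial.T (-1)) : RO ℤ) * TT1

end

end Pool.Agent.B5.KV67
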