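import Pool.Agent.Lib.MP_b5021c_nt.IfaceKV

/-!
# MP_b5021c_nt, route V: the closing A at a mutual pair, the constant coefficient has no zero in the
closed disc, the content is a unit
-/

namespace Pool.Agent.B5.KV67

open scoped LaurentPolynomial
open Polynomial
open Pool.Agent.B5.H40 (uT)
open Pool.Agent.B5.Nr.Sch (Loc)
open Pool.Agent.B5.KE

/-- A point `s` with `s² = 1 + 1/z`, `|1 - s| < 1`. -/
theorem sq_pt {z : ℂ} (hz : ‖z‖ = 1) (h1 : z ≠ -1) : ∃ s : ℂ, s ^ 2 = 1 + z⁻¹ ∧ ‖1 - s‖ < 1 := by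
  have hz0 : z ≠ 0 := by
    rintro rfl
    rw [norm_zero] at hz
    exact zero_ne_one hz
  have hw0 : (1 : ℂ) + z⁻¹ ≠ 0 := by
    intro h
    apply h1
    have h2 : z * (1 + z⁻¹) = z + 1 := by
      rw [mul_add, mul_one, mul_inv_cancel₀ hz0]
    rw [h, mul_zero] at h2
    linear_combination -h2
  -- the norm of `w`
  have hzi : z⁻¹ = (starRingEnd ℂ) z := by
    rw [Complex.inv_def, Complex.normSq_eq_norm_sq, hz]
    simp
  have hxy : z.re ^ 2 + z.im ^ 2 = 1 := by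
    have h2 := Complex.normSq_apply z
    rw [Complex.normSq_eq_norm_sq, hz] at h2
    nlinarith [h2]
  have hwre : (1 + z⁻¹ : ℂ).re = 1 + z.re := by
    rw [hzi, Complex.add_re, Complex.one_re, Complex.conj_re]
  have hwim : (1 + z⁻¹ : ℂ).im = -z.im := by
    rw [hzi, Complex.add_im, Complex.one_im, Complex.conj_im, zero_add]
  have hwn : ‖(1 + z⁻¹ : ℂ)‖ ^ 2 = 2 * (1 + z.re) := by
    rw [← Complex.normSq_eq_norm_sq, Complex.normSq_apply, hwre, hwim]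
    nlinarith [hxy]
  have hwp : 0 < ‖(1 + z⁻¹ : ℂ)‖ := norm_pos_iff.mpr hw0
  obtain ⟨s, hs, hre⟩ : ∃ s : ℂ, s ^ 2 = 1 + z⁻¹ ∧ 0 ≤ s.re := by
    obtain ⟨s, hs⟩ := IsAlgClosed.exists_pow_nat_eq (1 + z⁻¹ : ℂ) (n := 2) (by norm_num)
    rcases le_total 0 s.re with h | h
    · exact ⟨s, hs, h⟩
    · exact ⟨-s, by rw [neg_sq, hs], by rw [Complex.neg_re]; linarith⟩
  refine ⟨s, hs, ?_⟩
  have hsn : ‖s‖ ^ 2 = ‖(1 + z⁻¹ : ℂ)‖ := by rw [← hs, norm_pow]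
  have hsn' : s.re ^ 2 + s.im ^ 2 = ‖(1 + z⁻¹ : ℂ)‖ := by
    rw [← hsn, ← Complex.normSq_eq_norm_sq, Complex.normSq_apply]
    ring
  have hsr : s.re ^ 2 - s.im ^ 2 = 1 + z.re := by
    rw [← hwre, ← hs, pow_two s, Complex.mul_re]
    ring
  have h3 : ‖(1 + z⁻¹ : ℂ)‖ < 2 * s.re := by
    apply lt_of_pow_lt_pow_left₀ 2 (by linarith)
    have h4 : (2 * s.re) ^ 2 = 2 * ‖(1 + z⁻¹ : ℂ)‖ + ‖(1 + z⁻¹ : ℂ)‖ ^ 2 := by
      rw [hwn]
      linear_combination 2 * hsn' + 2 * hsr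
    linarith
  have h5 : ‖1 - s‖ ^ 2 < 1 := by
    rw [← Complex.normSq_eq_norm_sq, Complex.normSq_apply, Complex.sub_re, Complex.sub_im,
      Complex.one_re, Complex.one_im]
    nlinarith [hsn', h3]
  have h6 : (0 : ℝ) ≤ ‖1 - s‖ := norm_nonneg _
  nlinarith

section

variable {P L : Type} [Fintype P] [DecidableEq P] [AddCommGroup L] [Module.Free ℤ L]
  [Module.Finite ℤ L] {phi : L →+ (P → ℤ)} {D : AO ℤ L}

theorem evR_tL (z : Circle) (p : ℤ[X]) : evR z (toLaurent p : RO ℤ) = aeval (z : ℂ) p := by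
  have h1 := Pool.Agent.B5.H61.evR_Tp z 0 p
  rw [LaurentPolynomial.T_zero, one_mul, zpow_zero, one_mul] at h1
  rw [h1, ev_map]

/-- `E` has no zero in the closed disc. -/
theorem Ez_of (hMfc : MfcS) {S S1 : L} {e e1 : (RO ℤ)ˣ} {q f E : ℤ[X]} {a : ℝ}
    (hD : DD phi D) (h2 : 2 ≤ Module.finrank ℤ L) (hR : RN D S q f e a)
    (hM : Mut D S S1 (ld e 1) e1) (hE : f - q = X * E)
    (hop : ∀ z : ℂ, ‖z‖ < 1 → aeval z E ≠ 0)
    (hcu : ∀ z : ℂ, ‖z‖ = 1 → aeval z (q + X * f) ≠ 0) :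
    ∀ z : ℂ, ‖z‖ ≤ 1 → aeval z E ≠ 0 := by
  intro z hz h0
  rcases lt_or_eq_of_le hz with h | hz1
  · exact hop z h h0
  have hfq : aeval z f = aeval z q := by
    have h1 := congrArg (fun p : ℤ[X] => (aeval z p : ℂ)) hE
    simp only [map_sub, map_mul, h0, mul_zero] at h1
    exact sub_eq_zero.mp h1
  by_cases hm : z = -1
  · apply hcu z hz1
    rw [map_add, map_mul, aeval_X, hfq, hm]
    ring
  · obtain ⟨s, hs, hs1⟩ := sq_pt hz1 hm
    obtain ⟨w, rfl⟩ := circle_of z hz1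
    have h3 := hMfc ℤ P L phi D S S1 (ld e 1) e1 hD h2 hM w (1 - s) (1 - s) hs1 hs1
    apply h3
    have h4 : ((ld e 1 : (RO ℤ)ˣ) : RO ℤ) * D.coeff S = toLaurent (X * f) := by
      have h5 := ld_S hR 1
      rwa [pow_one] at h5
    rw [h4, hR.D0, evR_tL, evR_tL, map_mul, aeval_X, hfq]
    have h5 : (1 - s) + (1 - s) - (1 - s) * (1 - s) = 1 - s ^ 2 := by ring
    have hw0 : (w : ℂ) ≠ 0 := Circle.coe_ne_zero w
    rw [h5, hs]
    field_simp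
    ring

/-- The content is a unit. -/
theorem c_unit (hM1 : M1S) (hMV : MVS) {c x : RO ℤ} {q f E : ℤ[X]} (hc : ClassV 1 c)
    (hcx : c * x = toLaurent (q - f)) (hE : f - q = X * E)
    (hEz : ∀ z : ℂ, ‖z‖ ≤ 1 → aeval z E ≠ 0) : IsUnit c := by
  obtain ⟨h1, h2⟩ := (hMV ℤ).1 _ _ hc
  refine hM1 ℤ c h1 h2 fun z hz => ?_
  have h3 := congrArg (evR z) hcx
  rw [map_mul, hz, zero_mul, evR_tL] at h3
  have h4 : q - f = -(X * E) := by rw [← hE]; ring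
  rw [h4, map_neg, map_mul, aeval_X] at h3
  have h5 : (z : ℂ) * aeval (z : ℂ) E ≠ 0 :=
    mul_ne_zero (Circle.coe_ne_zero z) (hEz z (Circle.norm_coe z).le)
  exact h5 (neg_eq_zero.mp h3.symm)

end

end Pool.Agent.B5.KV67
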